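import Mathlib

/-! A graph with a parent function is a tree. -/

namespace Pool.Agent.Q117.Gers

open SimpleGraph

variable {V : Type*}

theorem isTree_of_parent (T : SimpleGraph V) (r : V) (d : V → ℕ) (par : V → V)
    (h0 : par r = r)
    (h1 : ∀ v, v ≠ r → T.Adj v (par v) ∧ d (par v) < d v)
    (h2 : ∀ u v, T.Adj u v → (v ≠ r ∧ par v = u) ∨ (u ≠ r ∧ par u = v)) : T.IsTree := by
  classical
  have hle : ∀ w, d (par w) ≤ d w := by
    intro w
    by_cases hw : w = r
    · rw [hw, h0]
    · exact (h1 w hw).2.le
  have hreach : ∀ n v, d v ≤ n → T.Reachable v r := by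
    intro n
    induction n with
    | zero =>
      intro v hv
      by_cases hvr : v = r
      · rw [hvr]
      · have := (h1 v hvr).2
        omega
    | succ n ih =>
      intro v hv
      by_cases hvr : v = r
      · rw [hvr]
      · obtain ⟨ha, hd⟩ := h1 v hvr
        exact ha.reachable.trans (ih (par v) (by omega))
  haveI : Nonempty V := ⟨r⟩
  refine ⟨⟨fun u v => (hreach _ u le_rfl).trans (hreach _ v le_rfl).symm⟩, ?_⟩
  rw [isAcyclic_iff_forall_adj_isBridge]
  -- the key case
  have key : ∀ v, v ≠ r → T.IsBridge s(v, par v) := by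
    intro v hv
    obtain ⟨ha, hd⟩ := h1 v hv
    rw [isBridge_iff]
    intro hr
    -- the set of descendants
    have hdepth : ∀ n w, par^[n] w = v → d v ≤ d w := by
      intro n
      induction n with
      | zero => intro w hw; simp at hw; rw [hw]
      | succ n ih =>
        intro w hw
        rw [Function.iterate_succ_apply] at hw
        exact (ih _ hw).trans (hle w)
    have hclosed : ∀ x y, (∃ n, par^[n] x = v) → (T.deleteEdges {s(v, par v)}).Adj x y →
        ∃ n, par^[n] y = v := by
      rintro x y ⟨n, hn⟩ hxy
      rw [deleteEdges_adj] at hxy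
      obtain ⟨hT, hne⟩ := hxy
      rcases h2 x y hT with ⟨_, hp⟩ | ⟨hxr, hp⟩
      · exact ⟨n + 1, by rw [Function.iterate_succ_apply, hp, hn]⟩
      · cases n with
        | zero =>
          exfalso
          simp only [Function.iterate_zero, id_eq] at hn
          apply hne
          rw [hn] at hp
          simp [hn, hp]
        | succ n =>
          rw [Function.iterate_succ_apply, hp] at hn
          exact ⟨n, hn⟩
    have hwalk : ∀ x y, (T.deleteEdges {s(v, par v)}).Reachable x y → (∃ n, par^[n] x = v) →
        ∃ n, par^[n] y = v := by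
      intro x y hxy
      obtain ⟨p⟩ := hxy
      induction p with
      | nil => exact id
      | cons h p ih => intro hx; exact ih (hclosed _ _ hx h)
    obtain ⟨n, hn⟩ := hwalk _ _ hr ⟨0, rfl⟩
    have := hdepth n _ hn
    omega
  intro u v huv
  rcases h2 u v huv with ⟨hv, hp⟩ | ⟨hu, hp⟩
  · have := key v hv
    rw [hp, Sym2.eq_swap] at this
    exact this
  · have := key u hu
    rw [hp] at this
    exact this

end Pool.Agent.Q117.Gers
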