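import Mathlib
import Pool.Agent.Q117.Gers.Tree

/-! The tree of the free group on `a, b, c` relative to `⟨a⟩`. -/

namespace Pool.Agent.Q117.Gers

open FreeGroup

abbrev F := FreeGroup (Fin 3)

abbrev gA : F := FreeGroup.of 0

abbrev A : Subgroup F := Subgroup.zpowers gA

/-- the vertices -/
def V : Type := F ⧸ A

def mkV (f : F) : V := (QuotientGroup.mk f : F ⧸ A)

theorem mkV_eq {x y : F} : mkV x = mkV y ↔ ∃ k : ℤ, y = x * gA ^ k := by
  have h0 : mkV x = mkV y ↔ x⁻¹ * y ∈ A := QuotientGroup.eq
  rw [h0, Subgroup.mem_zpowers_iff]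
  constructor
  · rintro ⟨k, hk⟩
    exact ⟨k, by rw [hk]; group⟩
  · rintro ⟨k, hk⟩
    exact ⟨k, by rw [hk]; group⟩

theorem mkV_surj (v : V) : ∃ f, mkV f = v := QuotientGroup.mk_surjective v

def strip (L : List (Fin 3 × Bool)) : List (Fin 3 × Bool) := L.dropWhile (fun x => x.1 = 0)

theorem strip_length (L : List (Fin 3 × Bool)) : (strip L).length ≤ L.length :=
  List.IsSuffix.length_le (List.dropWhile_suffix _)

theorem strip_cons_of_ne {x : Fin 3 × Bool} (hx : x.1 ≠ 0) (L : List (Fin 3 × Bool)) :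
    strip (x :: L) = x :: L := by
  simp [strip, hx]

theorem strip_cons_of_eq {x : Fin 3 × Bool} (hx : x.1 = 0) (L : List (Fin 3 × Bool)) :
    strip (x :: L) = strip L := by
  simp [strip, hx]

theorem strip_head {L M : List (Fin 3 × Bool)} {x : Fin 3 × Bool} (h : strip L = x :: M) :
    x.1 ≠ 0 := by
  induction L with
  | nil => simp [strip] at h
  | cons y L ih =>
    by_cases hy : y.1 = 0
    · rw [strip_cons_of_eq hy] at h
      exact ih h
    · rw [strip_cons_of_ne hy] at h
      simp only [List.cons.injEq] at h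
      rw [← h.1]
      exact hy

theorem toWord_letter (x : Fin 3 × Bool) (g : F) :
    (∃ tl, toWord g = (x.1, !x.2) :: tl ∧ toWord (mk [x] * g) = tl) ∨
    ((∀ tl, toWord g ≠ (x.1, !x.2) :: tl) ∧ toWord (mk [x] * g) = x :: toWord g) := by
  have h : toWord (mk [x] * g) = reduce (x :: toWord g) := by
    conv_lhs => rw [← mk_toWord (x := g), mul_mk, toWord_mk]
    rfl
  rw [h, reduce.cons, reduce_toWord]
  cases hW : toWord g with
  | nil => right; simp
  | cons hd tl =>
    by_cases hc : x.1 = hd.1 ∧ x.2 = !hd.2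
    · left
      refine ⟨tl, ?_, by simp [hc]⟩
      obtain ⟨h1, h2⟩ := hc
      rw [h1, h2]
      simp
    · right
      refine ⟨?_, by simp [hc]⟩
      intro tl' htl
      simp only [List.cons.injEq] at htl
      apply hc
      rw [htl.1]
      simp

def E0 (g : F) : List (Fin 3 × Bool) := strip (toWord g)

theorem E0_letter (β : Bool) (g : F) : E0 (mk [(0, β)] * g) = E0 g := by
  unfold E0
  rcases toWord_letter (0, β) g with ⟨tl, h1, h2⟩ | ⟨_, h2⟩
  · rw [h2, h1, strip_cons_of_eq rfl]
  · rw [h2, strip_cons_of_eq rfl]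

theorem E0_zpow (k : ℤ) (g : F) : E0 (gA ^ k * g) = E0 g := by
  have h1 : ∀ g : F, E0 (gA * g) = E0 g := fun g => E0_letter true g
  have h2 : ∀ g : F, E0 (gA⁻¹ * g) = E0 g := fun g => by
    have := h1 (gA⁻¹ * g)
    rw [mul_inv_cancel_left] at this
    exact this.symm
  induction k using Int.induction_on with
  | zero => simp
  | succ n ih => rw [add_comm, zpow_add, zpow_one, mul_assoc, h1, ih]
  | pred n ih => rw [sub_eq_neg_add, zpow_add, zpow_neg_one, mul_assoc, h2, ih]

/-- the label of a vertex -/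
def E (v : V) : List (Fin 3 × Bool) :=
  Quotient.lift (s := QuotientGroup.leftRel A) (fun f : F => E0 f⁻¹) (by
    intro x y hxy
    have h : mkV x = mkV y := Quotient.sound hxy
    obtain ⟨k, hk⟩ := mkV_eq.1 h
    show E0 x⁻¹ = E0 y⁻¹
    rw [hk, mul_inv_rev, ← zpow_neg, E0_zpow]) v

theorem E_mkV (f : F) : E (mkV f) = E0 f⁻¹ := rfl

theorem mk_strip (L : List (Fin 3 × Bool)) : ∃ k : ℤ, (mk (strip L) : F) = gA ^ k * mk L := by
  induction L with
  | nil => exact ⟨0, by simp [strip]⟩
  | cons x L ih =>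
    by_cases hx : x.1 = 0
    · obtain ⟨k, hk⟩ := ih
      rw [strip_cons_of_eq hx, hk]
      obtain ⟨i, β⟩ := x
      simp only at hx
      subst hx
      have h2 : (mk ((0, β) :: L) : F) = mk [(0, β)] * mk L := by rw [mul_mk]; rfl
      cases β with
      | true =>
        refine ⟨k - 1, ?_⟩
        rw [h2]
        have : (mk [((0 : Fin 3), true)] : F) = gA := rfl
        rw [this, ← mul_assoc, ← zpow_add_one]
        congr 2
        ring
      | false =>
        refine ⟨k + 1, ?_⟩
        rw [h2]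
        have : (mk [((0 : Fin 3), false)] : F) = gA⁻¹ := by
          rw [show gA = mk [((0 : Fin 3), true)] from rfl, inv_mk]; rfl
        rw [this, ← mul_assoc, ← zpow_sub_one]
        congr 2
        ring
    · exact ⟨0, by rw [strip_cons_of_ne hx]; simp⟩

theorem eq_mkV_E (v : V) : mkV (mk (E v))⁻¹ = v := by
  obtain ⟨f, rfl⟩ := mkV_surj v
  rw [E_mkV]
  unfold E0
  obtain ⟨k, hk⟩ := mk_strip (toWord f⁻¹)
  rw [hk, mk_toWord, mkV_eq]
  exact ⟨k, by group⟩

def root : V := mkV 1

def par (v : V) : V := mkV (mk (E v).tail)⁻¹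

def d (v : V) : ℕ := (E v).length

theorem E_root : E root = [] := by
  rw [root, E_mkV]
  simp [E0, strip]

theorem par_root : par root = root := by
  rw [par, E_root]
  have h : (mk ([] : List (Fin 3 × Bool)).tail : F)⁻¹ = 1 := inv_one
  rw [h]; rfl

theorem d_root : d root = 0 := by rw [d, E_root]; rfl

theorem adj_cases (f : F) (i : Fin 3) (hi : i ≠ 0) :
    (par (mkV f) = mkV (f * of i) ∧ d (mkV (f * of i)) < d (mkV f)) ∨
    (par (mkV (f * of i)) = mkV f ∧ d (mkV f) < d (mkV (f * of i))) := by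
  have hinv : (f * of i)⁻¹ = mk [(i, false)] * f⁻¹ := by
    rw [mul_inv_rev]
    congr 1
  rcases toWord_letter (i, false) f⁻¹ with ⟨tl, h1, h2⟩ | ⟨_, h2⟩
  · left
    simp only [Bool.not_false] at h1
    have hE : E (mkV f) = (i, true) :: tl := by
      rw [E_mkV, E0, h1, strip_cons_of_ne (by simpa using hi)]
    have hf : f * of i = (mk tl)⁻¹ := by
      rw [← h2, mk_toWord, ← hinv, inv_inv]
    constructor
    · rw [par, hE, hf]; rfl
    · rw [d, d, hE, E_mkV, E0, hinv, h2]
      have := strip_length tl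
      simp only [List.length_cons]
      omega
  · right
    have hE : E (mkV (f * of i)) = (i, false) :: toWord f⁻¹ := by
      rw [E_mkV, E0, hinv, h2, strip_cons_of_ne (by simpa using hi)]
    constructor
    · rw [par, hE]
      simp only [List.tail_cons]
      rw [mk_toWord, inv_inv]
    · rw [d, d, hE, E_mkV, E0]
      have := strip_length (toWord f⁻¹)
      simp only [List.length_cons]
      omega

/-- the tree -/
def T : SimpleGraph V where
  Adj u v := ∃ (f : F) (i : Fin 3), i ≠ 0 ∧
    ((u = mkV f ∧ v = mkV (f * of i)) ∨ (v = mkV f ∧ u = mkV (f * of i)))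
  symm := ⟨by
    rintro u v ⟨f, i, hi, h⟩
    exact ⟨f, i, hi, h.symm⟩⟩
  loopless := ⟨by
    rintro u ⟨f, i, hi, h⟩
    have h' : mkV f = mkV (f * of i) := by
      rcases h with ⟨h1, h2⟩ | ⟨h1, h2⟩
      · rw [← h1, ← h2]
      · rw [← h1, ← h2]
    rcases adj_cases f i hi with ⟨_, h⟩ | ⟨_, h⟩
    · rw [h'] at h; exact lt_irrefl _ h
    · rw [h'] at h; exact lt_irrefl _ h⟩

theorem T_isTree : T.IsTree := by
  apply isTree_of_parent T root d par par_root
  · intro v hv
    have hv2 := eq_mkV_E v
    cases hE : E v with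
    | nil =>
      rw [hE] at hv2
      exact absurd (by
        rw [← hv2]
        have h : (mk ([] : List (Fin 3 × Bool)) : F)⁻¹ = 1 := inv_one
        rw [h]; rfl) hv
    | cons x L =>
      have hx : x.1 ≠ 0 := by
        obtain ⟨f, rfl⟩ := mkV_surj v
        rw [E_mkV] at hE
        exact strip_head hE
      have hpar : par v = mkV (mk L)⁻¹ := by rw [par, hE]; rfl
      rw [hE] at hv2
      constructor
      · obtain ⟨i, β⟩ := x
        have hc : (mk ((i, β) :: L) : F) = mk [(i, β)] * mk L := by rw [mul_mk]; rfl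
        cases β with
        | false =>
          refine ⟨(mk L)⁻¹, i, hx, Or.inr ⟨hpar, ?_⟩⟩
          rw [← hv2, hc, mul_inv_rev]
          congr 2
        | true =>
          refine ⟨(mk L)⁻¹ * (of i)⁻¹, i, hx, Or.inl ⟨?_, ?_⟩⟩
          · rw [← hv2, hc, mul_inv_rev]; rfl
          · rw [hpar, inv_mul_cancel_right]
      · rw [hpar, d, d, hE, E_mkV, inv_inv, E0, toWord_mk]
        have h1 := strip_length (reduce L)
        have h2 : (reduce L).length ≤ L.length := Red.length_le reduce.red
        simp only [List.length_cons]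
        omega
  · rintro u v ⟨f, i, hi, h⟩
    have key : ∀ x y : V, par x = y ∧ d y < d x → x ≠ root ∧ par x = y := by
      rintro x y ⟨h1, h2⟩
      refine ⟨?_, h1⟩
      rintro rfl
      rw [d_root] at h2
      omega
    rcases h with ⟨rfl, rfl⟩ | ⟨rfl, rfl⟩
    · rcases adj_cases f i hi with h | h
      · exact Or.inr (key _ _ h)
      · exact Or.inl (key _ _ h)
    · rcases adj_cases f i hi with h | h
      · exact Or.inl (key _ _ h)
      · exact Or.inr (key _ _ h)

end Pool.Agent.Q117.Gers
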