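import Mathlib
import Pool.Agent.Q117.Gers.Words

/-! Gersten's group `F₃ ⋊ ℤ` and its action on the tree. -/

namespace Pool.Agent.Q117.Gers

open FreeGroup

abbrev gB : F := FreeGroup.of 1
abbrev gC : F := FreeGroup.of 2

def φhom : F →* F := FreeGroup.lift ![gA, gB * gA, gC * gA * gA]

def ψhom : F →* F := FreeGroup.lift ![gA, gB * gA⁻¹, gC * gA⁻¹ * gA⁻¹]

def φ : MulAut F :=
  MonoidHom.toMulEquiv φhom ψhom
    (by
      ext i
      fin_cases i <;> simp [φhom, ψhom])
    (by
      ext i
      fin_cases i <;> simp [φhom, ψhom])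

theorem φ_a : φ gA = gA := by simp [φ, φhom]
theorem φ_b : φ gB = gB * gA := by simp [φ, φhom]
theorem φ_c : φ gC = gC * gA * gA := by simp [φ, φhom]

def θ : Multiplicative ℤ →* MulAut F := zpowersHom (MulAut F) φ

theorem θ_one' : θ (Multiplicative.ofAdd 1) = φ := by simp [θ]

theorem θ_a (n : Multiplicative ℤ) : θ n gA = gA := by
  have h : φ ∈ MulAction.stabilizer (MulAut F) gA := φ_a
  have h2 : θ n ∈ MulAction.stabilizer (MulAut F) gA := by
    have : θ n = φ ^ (Multiplicative.toAdd n) := rfl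
    rw [this]
    exact Subgroup.zpow_mem _ h _
  exact h2

theorem θ_zpow (n : Multiplicative ℤ) (k : ℤ) : θ n (gA ^ k) = gA ^ k := by
  rw [map_zpow, θ_a]

theorem φ_of (i : Fin 3) : ∃ k : ℤ, φ (of i) = of i * gA ^ k := by
  fin_cases i
  · exact ⟨0, by simp [φ_a]⟩
  · exact ⟨1, by simp [φ_b]⟩
  · exact ⟨2, by simp only [Fin.reduceFinMk]; rw [φ_c, mul_assoc, zpow_two]⟩

theorem θ_of (i : Fin 3) (n : Multiplicative ℤ) : ∃ k : ℤ, θ n (of i) = of i * gA ^ k := by
  have h : ∀ m : ℤ, ∃ k : ℤ, (φ ^ m : MulAut F) (of i) = of i * gA ^ k := by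
    obtain ⟨l, hl⟩ := φ_of i
    have hinv : φ⁻¹ (of i) = of i * gA ^ (-l) := by
      apply φ.injective
      have h1 : φ (φ⁻¹ (of i)) = of i := φ.apply_symm_apply (of i)
      rw [h1, _root_.map_mul, map_zpow, φ_a, hl]
      group
    intro m
    induction m using Int.induction_on with
    | zero => exact ⟨0, by simp⟩
    | succ n ih =>
      obtain ⟨k, hk⟩ := ih
      refine ⟨l + k, ?_⟩
      rw [add_comm, zpow_add, zpow_one, MulAut.mul_apply, hk, _root_.map_mul, map_zpow, φ_a, hl]
      group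
    | pred n ih =>
      obtain ⟨k, hk⟩ := ih
      refine ⟨-l + k, ?_⟩
      have h2 : φ⁻¹ gA = gA := by
        apply φ.injective
        have h1 : φ (φ⁻¹ gA) = gA := φ.apply_symm_apply gA
        rw [h1, φ_a]
      rw [sub_eq_neg_add, zpow_add, zpow_neg_one, MulAut.mul_apply, hk, _root_.map_mul, map_zpow, h2,
        hinv]
      group
  exact h (Multiplicative.toAdd n)

/-- the group -/
abbrev G : Type := F ⋊[θ] Multiplicative ℤ

/-- the action on vertices -/
def smulV (g : G) : V → V :=
  Quotient.map' (s₁ := QuotientGroup.leftRel A) (s₂ := QuotientGroup.leftRel A)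
    (fun x : F => g.left * θ g.right x) (by
    intro x y hxy
    have h : mkV x = mkV y := Quotient.sound hxy
    obtain ⟨k, hk⟩ := mkV_eq.1 h
    apply Quotient.exact (s := QuotientGroup.leftRel A)
    show mkV (g.left * θ g.right x) = mkV (g.left * θ g.right y)
    rw [mkV_eq]
    refine ⟨k, ?_⟩
    rw [hk, _root_.map_mul, θ_zpow, mul_assoc])

theorem smulV_mkV (g : G) (x : F) : smulV g (mkV x) = mkV (g.left * θ g.right x) := rfl

instance : MulAction G V where
  smul := smulV
  one_smul v := by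
    obtain ⟨x, rfl⟩ := mkV_surj v
    show smulV 1 (mkV x) = mkV x
    rw [smulV_mkV]
    simp
  mul_smul g h v := by
    obtain ⟨x, rfl⟩ := mkV_surj v
    show smulV (g * h) (mkV x) = smulV g (smulV h (mkV x))
    rw [smulV_mkV, smulV_mkV, smulV_mkV]
    simp [mul_assoc]

theorem smul_mkV (g : G) (x : F) : g • mkV x = mkV (g.left * θ g.right x) := rfl

theorem smul_adj (g : G) (u v : V) (h : T.Adj u v) : T.Adj (g • u) (g • v) := by
  obtain ⟨f, i, hi, h⟩ := h
  have key : g • mkV (f * of i) = mkV (g.left * θ g.right f * of i) := by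
    rw [smul_mkV, _root_.map_mul]
    obtain ⟨k, hk⟩ := θ_of i g.right
    rw [hk, Eq.comm, mkV_eq]
    exact ⟨k, by group⟩
  refine ⟨g.left * θ g.right f, i, hi, ?_⟩
  rcases h with ⟨rfl, rfl⟩ | ⟨rfl, rfl⟩
  · left; exact ⟨rfl, key⟩
  · right; exact ⟨rfl, key⟩

/-- a sign that distinguishes the two ends of an edge: the total exponent of `b` and `c` -/
def exHom : F →* Multiplicative ℤ :=
  FreeGroup.lift ![1, Multiplicative.ofAdd 1, Multiplicative.ofAdd 1]

theorem exHom_a : exHom gA = 1 := by simp [exHom]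

theorem exHom_of (i : Fin 3) (hi : i ≠ 0) : exHom (of i) = Multiplicative.ofAdd 1 := by
  fin_cases i
  · simp at hi
  · simp [exHom]
  · simp [exHom]

theorem exHom_φ (x : F) : exHom (φ x) = exHom x := by
  have : exHom.comp φ.toMonoidHom = exHom := by
    ext i
    fin_cases i <;> simp [exHom, φ_a, φ_b, φ_c]
  exact DFunLike.congr_fun this x

theorem exHom_θ (n : Multiplicative ℤ) (x : F) : exHom (θ n x) = exHom x := by
  have h : ∀ m : ℤ, ∀ x, exHom ((φ ^ m : MulAut F) x) = exHom x := by
    intro m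
    induction m using Int.induction_on with
    | zero => intro x; simp
    | succ n ih =>
      intro x
      rw [add_comm, zpow_add, zpow_one, MulAut.mul_apply, exHom_φ, ih]
    | pred n ih =>
      intro x
      rw [sub_eq_neg_add, zpow_add, zpow_neg_one, MulAut.mul_apply]
      rw [← exHom_φ]
      have h1 : φ (φ⁻¹ ((φ ^ (-(n : ℤ)) : MulAut F) x)) = (φ ^ (-(n : ℤ)) : MulAut F) x :=
        φ.apply_symm_apply _
      rw [h1, ih]
  exact h (Multiplicative.toAdd n) x

def lev (v : V) : Multiplicative ℤ :=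
  Quotient.lift (s := QuotientGroup.leftRel A) (fun f : F => exHom f) (by
    intro x y hxy
    have h : mkV x = mkV y := Quotient.sound hxy
    obtain ⟨k, hk⟩ := mkV_eq.1 h
    show exHom x = exHom y
    rw [hk, _root_.map_mul, map_zpow, exHom_a]
    simp) v

theorem lev_mkV (f : F) : lev (mkV f) = exHom f := rfl

theorem lev_smul (g : G) (v : V) : lev (g • v) = exHom g.left * lev v := by
  obtain ⟨x, rfl⟩ := mkV_surj v
  rw [smul_mkV, lev_mkV, lev_mkV, _root_.map_mul, exHom_θ]

theorem lev_adj (f : F) (i : Fin 3) (hi : i ≠ 0) :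
    lev (mkV (f * of i)) = lev (mkV f) * Multiplicative.ofAdd 1 := by
  rw [lev_mkV, lev_mkV, _root_.map_mul, exHom_of i hi]

theorem no_inversion (g : G) (u v : V) (h : T.Adj u v) : ¬ (g • u = v ∧ g • v = u) := by
  rintro ⟨h1, h2⟩
  have e1 : Multiplicative.toAdd (lev v) = Multiplicative.toAdd (exHom g.left) +
      Multiplicative.toAdd (lev u) := by
    have := lev_smul g u
    rw [h1] at this
    rw [this]; rfl
  have e2 : Multiplicative.toAdd (lev u) = Multiplicative.toAdd (exHom g.left) +
      Multiplicative.toAdd (lev v) := by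
    have := lev_smul g v
    rw [h2] at this
    rw [this]; rfl
  have e3 : Multiplicative.toAdd (lev u) = Multiplicative.toAdd (lev v) := by omega
  obtain ⟨f, i, hi, h⟩ := h
  have e4 : Multiplicative.toAdd (lev (mkV (f * of i))) =
      Multiplicative.toAdd (lev (mkV f)) + 1 := by
    rw [lev_adj f i hi]; rfl
  rcases h with ⟨rfl, rfl⟩ | ⟨rfl, rfl⟩ <;> omega

/-- elements of `F` -/
abbrev iF : F →* G := SemidirectProduct.inl

theorem iF_smul (x y : F) : iF x • mkV y = mkV (x * y) := by
  rw [smul_mkV]; simp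

theorem vertex_orbit (v : V) : ∃ x : F, iF x • root = v := by
  obtain ⟨x, rfl⟩ := mkV_surj v
  exact ⟨x, by rw [root, iF_smul, mul_one]⟩

theorem mem_stab_root (g : G) : g ∈ MulAction.stabilizer G root ↔ ∃ k : ℤ, g.left = gA ^ k := by
  rw [MulAction.mem_stabilizer_iff, root, smul_mkV, Eq.comm, mkV_eq]
  simp

/-- the stabiliser of the root -/
def jHom : Multiplicative (Fin 2 → ℤ) →* G where
  toFun v := ⟨gA ^ (Multiplicative.toAdd v 0), Multiplicative.ofAdd (Multiplicative.toAdd v 1)⟩
  map_one' := by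
    apply SemidirectProduct.ext
    · exact zpow_zero _
    · rfl
  map_mul' v w := by
    apply SemidirectProduct.ext
    · rw [SemidirectProduct.mul_left]
      show gA ^ (Multiplicative.toAdd v 0 + Multiplicative.toAdd w 0) = _
      rw [θ_zpow, zpow_add]
    · rfl

theorem a_zpow_inj {k l : ℤ} (h : gA ^ k = gA ^ l) : k = l := by
  have h2 := congrArg (FreeGroup.lift ![Multiplicative.ofAdd (1 : ℤ), 1, 1]) h
  rw [map_zpow, map_zpow] at h2
  simp only [lift_apply_of, Matrix.cons_val_zero] at h2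
  rw [← ofAdd_zsmul, ← ofAdd_zsmul] at h2
  simpa using h2

theorem jHom_inj : Function.Injective jHom := by
  intro v w h
  have h1 := congrArg SemidirectProduct.left h
  have h2 := congrArg SemidirectProduct.right h
  simp only [jHom, MonoidHom.coe_mk, OneHom.coe_mk] at h1 h2
  have h3 := a_zpow_inj h1
  apply Multiplicative.toAdd.injective
  funext i
  fin_cases i
  · exact h3
  · exact Multiplicative.ofAdd.injective h2

theorem jHom_range : jHom.range = MulAction.stabilizer G root := by
  ext g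
  rw [mem_stab_root]
  constructor
  · rintro ⟨v, rfl⟩
    exact ⟨_, rfl⟩
  · rintro ⟨k, hk⟩
    refine ⟨Multiplicative.ofAdd ![k, Multiplicative.toAdd g.right], ?_⟩
    apply SemidirectProduct.ext
    · exact hk.symm
    · rfl

theorem stab_root_iso : Nonempty (↥(MulAction.stabilizer G root) ≃* Multiplicative (Fin 2 → ℤ)) :=
  ⟨(MulEquiv.subgroupCongr jHom_range.symm).trans (MonoidHom.ofInjective jHom_inj).symm⟩

theorem stab_iso (v : V) :
    Nonempty (↥(MulAction.stabilizer G v) ≃* Multiplicative (Fin 2 → ℤ)) := by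
  obtain ⟨x, rfl⟩ := vertex_orbit v
  obtain ⟨e⟩ := stab_root_iso
  exact ⟨(MulAction.stabilizerEquivStabilizer rfl).symm.trans e⟩

theorem conj_zero {i : Fin 3} (hi : i ≠ 0) {k l : ℤ} (h : (of i)⁻¹ * gA ^ k * of i = gA ^ l) :
    k = 0 := by
  -- homomorphism to the infinite dihedral group
  have h1 : k = l := by
    have h2 := congrArg (FreeGroup.lift ![Multiplicative.ofAdd (1 : ℤ), 1, 1]) h
    have h3 : (FreeGroup.lift ![Multiplicative.ofAdd (1 : ℤ), 1, 1]) (of i) = 1 := by
      fin_cases i
      · simp at hi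
      · simp
      · simp
    rw [_root_.map_mul, _root_.map_mul, map_zpow, map_zpow, _root_.map_inv, h3] at h2
    simp only [lift_apply_of, Matrix.cons_val_zero, inv_one, one_mul, mul_one] at h2
    rw [← ofAdd_zsmul, ← ofAdd_zsmul] at h2
    simpa using h2
  have h2 : k = -l := by
    let D : F →* Equiv.Perm ℤ := FreeGroup.lift ![Equiv.addRight 1, Equiv.neg ℤ, Equiv.neg ℤ]
    have h3 : D (of i) = Equiv.neg ℤ := by
      fin_cases i
      · simp at hi
      · simp [D]
      · simp [D]
    have h4 : ∀ m : ℤ, ∀ x : ℤ, (D gA ^ m) x = x + m := by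
      intro m
      have ha : ∀ x : ℤ, D gA x = x + 1 := by intro x; simp [D]
      have ha' : ∀ x : ℤ, (D gA)⁻¹ x = x - 1 := by
        intro x
        rw [Equiv.Perm.inv_eq_iff_eq, ha]; ring
      induction m using Int.induction_on with
      | zero => intro x; simp
      | succ n ih => intro x; rw [zpow_add_one, Equiv.Perm.mul_apply, ha, ih]; ring
      | pred n ih => intro x; rw [zpow_sub_one, Equiv.Perm.mul_apply, ha', ih]; ring
    have h5 := congrArg (fun σ : Equiv.Perm ℤ => σ 0) (congrArg D h)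
    simp only [_root_.map_mul, map_zpow, _root_.map_inv, h3, Equiv.Perm.mul_apply] at h5
    rw [h4, h4] at h5
    have h6 : ((Equiv.neg ℤ)⁻¹ : Equiv.Perm ℤ) = Equiv.neg ℤ := by ext x; simp [Equiv.Perm.inv_def]
    rw [h6] at h5
    simp at h5
    omega
  omega

theorem edge_cyclic (u v : V) (h : T.Adj u v) :
    IsCyclic ↥(MulAction.stabilizer G u ⊓ MulAction.stabilizer G v) := by
  have key : ∀ g : G, g ∈ MulAction.stabilizer G u ⊓ MulAction.stabilizer G v → g.right = 1 →
      g = 1 := by
    intro g hg hr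
    obtain ⟨hu, hv⟩ := hg
    have hu : g • u = u := hu
    have hv : g • v = v := hv
    obtain ⟨f, i, hi, h⟩ := h
    have e1 : g • mkV f = mkV f := by
      rcases h with ⟨rfl, rfl⟩ | ⟨rfl, rfl⟩
      · exact hu
      · exact hv
    have e2 : g • mkV (f * of i) = mkV (f * of i) := by
      rcases h with ⟨rfl, rfl⟩ | ⟨rfl, rfl⟩
      · exact hv
      · exact hu
    rw [smul_mkV, hr, _root_.map_one, MulAut.one_apply, Eq.comm, mkV_eq] at e1 e2
    obtain ⟨k, hk⟩ := e1
    obtain ⟨l, hl⟩ := e2
    have h1 : (of i)⁻¹ * gA ^ k * of i = gA ^ l := by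
      have : (of i)⁻¹ * gA ^ k * of i = (of i)⁻¹ * f⁻¹ * (f * gA ^ k) * of i := by group
      rw [this, ← hk]
      have : (of i)⁻¹ * f⁻¹ * (g.left * f) * of i = (f * of i)⁻¹ * (g.left * (f * of i)) := by
        group
      rw [this, hl]
      group
    have hk0 := conj_zero hi h1
    rw [hk0, zpow_zero, mul_one] at hk
    apply SemidirectProduct.ext
    · exact mul_eq_right.1 hk
    · exact hr
  let ρ : ↥(MulAction.stabilizer G u ⊓ MulAction.stabilizer G v) →* Multiplicative ℤ :=
    (SemidirectProduct.rightHom).comp (Subgroup.subtype _)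
  have hinj : Function.Injective ρ := by
    rw [injective_iff_map_eq_one]
    intro g hg
    apply Subtype.ext
    exact key g g.2 hg
  exact isCyclic_of_injective ρ hinj

end Pool.Agent.Q117.Gers
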