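import Mathlib
import Pool.Agent.Q117.Gers.Grp

/-! Cyclic subgroups of Gersten's group are separable. -/

namespace Pool.Agent.Q117.Gers

open FreeGroup

/-- Finite models of actions of the free group (the argument of Marshall Hall). -/
theorem exists_finite_model {X : Type} [MulAction F X] (x0 : X) (ws : Finset F) :
    ∃ (Y : Finset X) (hx0 : x0 ∈ Y) (ρ : F →* Equiv.Perm Y), ∀ w ∈ ws, ∃ hw : w • x0 ∈ Y,
      ρ w ⟨x0, hx0⟩ = ⟨w • x0, hw⟩ := by
  classical
  let Y : Finset X := insert x0 (ws.biUnion fun w =>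
    ((toWord w).tails.map (fun L => (mk L : F) • x0)).toFinset)
  have hx0 : x0 ∈ Y := Finset.mem_insert_self _ _
  have hY : ∀ w ∈ ws, ∀ L, L <:+ toWord w → (mk L : F) • x0 ∈ Y := by
    intro w hw L hL
    apply Finset.mem_insert_of_mem
    rw [Finset.mem_biUnion]
    refine ⟨w, hw, ?_⟩
    rw [List.mem_toFinset, List.mem_map]
    exact ⟨L, by rw [List.mem_tails]; exact hL, rfl⟩
  let e : ∀ i : Fin 3, {y : Y // (of i : F) • (y : X) ∈ Y} ≃ {y : Y // (of i : F)⁻¹ • (y : X) ∈ Y} :=
    fun i =>
    { toFun := fun y => ⟨⟨(of i : F) • (y.1 : X), y.2⟩, by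
        show (of i : F)⁻¹ • ((of i : F) • (y.1 : X)) ∈ Y
        rw [inv_smul_smul]; exact y.1.2⟩
      invFun := fun y => ⟨⟨(of i : F)⁻¹ • (y.1 : X), y.2⟩, by
        show (of i : F) • ((of i : F)⁻¹ • (y.1 : X)) ∈ Y
        rw [smul_inv_smul]; exact y.1.2⟩
      left_inv := fun y => by
        apply Subtype.ext; apply Subtype.ext
        exact inv_smul_smul _ _
      right_inv := fun y => by
        apply Subtype.ext; apply Subtype.ext
        exact smul_inv_smul _ _ }
  let σ : Fin 3 → Equiv.Perm Y := fun i => (e i).extendSubtype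
  have hσ : ∀ i (y : Y) (h : (of i : F) • (y : X) ∈ Y), σ i y = ⟨(of i : F) • (y : X), h⟩ := by
    intro i y h
    exact Equiv.extendSubtype_apply_of_mem (e i) y h
  have hσ' : ∀ i (y : Y) (h : (of i : F)⁻¹ • (y : X) ∈ Y),
      (σ i)⁻¹ y = ⟨(of i : F)⁻¹ • (y : X), h⟩ := by
    intro i y h
    rw [Equiv.Perm.inv_eq_iff_eq, hσ i _ (by
      show (of i : F) • ((of i : F)⁻¹ • (y : X)) ∈ Y
      rw [smul_inv_smul]; exact y.2)]
    apply Subtype.ext
    exact (smul_inv_smul _ _).symm
  let ρ : F →* Equiv.Perm Y := FreeGroup.lift σ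
  refine ⟨Y, hx0, ρ, ?_⟩
  intro w hw
  have key : ∀ L, L <:+ toWord w → ((ρ (mk L) ⟨x0, hx0⟩ : Y) : X) = (mk L : F) • x0 := by
    intro L
    induction L with
    | nil =>
      intro _
      have h1 : (mk ([] : List (Fin 3 × Bool)) : F) = 1 := rfl
      rw [h1]
      simp
    | cons x L ih =>
      intro hL
      have h2 := ih ((List.suffix_cons x L).trans hL)
      have h3 : (mk (x :: L) : F) = mk [x] * mk L := by rw [mul_mk]; rfl
      obtain ⟨i, β⟩ := x
      cases β with
      | true =>
        have h4 : (mk [(i, true)] : F) = of i := rfl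
        have h5 := hY w hw _ hL
        rw [h3, h4, mul_smul, ← h2] at h5
        rw [h3, h4, _root_.map_mul, Equiv.Perm.mul_apply]
        have h6 : ρ (of i) = σ i := by simp [ρ]
        rw [h6, hσ i _ h5, mul_smul, ← h2]
      | false =>
        have h4 : (mk [(i, false)] : F) = (of i)⁻¹ := rfl
        have h5 := hY w hw _ hL
        rw [h3, h4, mul_smul, ← h2] at h5
        rw [h3, h4, _root_.map_mul, Equiv.Perm.mul_apply]
        have h6 : ρ (of i)⁻¹ = (σ i)⁻¹ := by simp [ρ]
        rw [h6, hσ' i _ h5, mul_smul, ← h2]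
  have h1 := key (toWord w) (List.suffix_refl _)
  have h2 := hY w hw _ (List.suffix_refl _)
  rw [mk_toWord] at h1 h2
  exact ⟨h2, Subtype.ext h1⟩

theorem marshall_hall (g h : F) (hh : h ∉ Subgroup.zpowers g) :
    ∃ (X : Type) (_ : Fintype X) (ρ : F →* Equiv.Perm X) (x0 : X), ρ g x0 = x0 ∧ ρ h x0 ≠ x0 := by
  classical
  obtain ⟨Y, hx0, ρ, hρ⟩ := exists_finite_model
    ((QuotientGroup.mk 1 : F ⧸ Subgroup.zpowers g)) {g, h}
  refine ⟨Y, inferInstance, ρ, ⟨_, hx0⟩, ?_, ?_⟩
  · obtain ⟨hw, h1⟩ := hρ g (by simp)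
    rw [h1]
    apply Subtype.ext
    show ((g * 1 : F) : F ⧸ Subgroup.zpowers g) = ((1 : F) : F ⧸ Subgroup.zpowers g)
    rw [QuotientGroup.eq]
    simp
  · obtain ⟨hw, h1⟩ := hρ h (by simp)
    rw [h1]
    intro h2
    have h3 := congrArg Subtype.val h2
    have h4 : ((h * 1 : F) : F ⧸ Subgroup.zpowers g) = ((1 : F) : F ⧸ Subgroup.zpowers g) := h3
    rw [QuotientGroup.eq] at h4
    apply hh
    simpa using h4

section ext

variable {X : Type}

/-- the action of the free part on pairs (homomorphism, point) -/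
def f1 : F →* Equiv.Perm ((F →* Equiv.Perm X) × X) where
  toFun x :=
    { toFun := fun p => (p.1, p.1 x p.2)
      invFun := fun p => (p.1, (p.1 x)⁻¹ p.2)
      left_inv := fun p => by simp
      right_inv := fun p => by simp }
  map_one' := by ext p <;> simp
  map_mul' x y := by ext p <;> simp

/-- the action of the infinite cyclic part -/
def f2 : Multiplicative ℤ →* Equiv.Perm ((F →* Equiv.Perm X) × X) where
  toFun n :=
    { toFun := fun p => (p.1.comp (θ n⁻¹).toMonoidHom, p.2)
      invFun := fun p => (p.1.comp (θ n).toMonoidHom, p.2)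
      left_inv := fun p => by
        apply Prod.ext
        · apply MonoidHom.ext
          intro x
          show p.1 (θ n⁻¹ (θ n x)) = p.1 x
          rw [← MulAut.mul_apply, ← _root_.map_mul, inv_mul_cancel, _root_.map_one,
            MulAut.one_apply]
        · rfl
      right_inv := fun p => by
        apply Prod.ext
        · apply MonoidHom.ext
          intro x
          show p.1 (θ n (θ n⁻¹ x)) = p.1 x
          rw [← MulAut.mul_apply, ← _root_.map_mul, mul_inv_cancel, _root_.map_one,
            MulAut.one_apply]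
        · rfl }
  map_one' := by
    apply Equiv.ext
    intro p
    apply Prod.ext
    · apply MonoidHom.ext
      intro x
      show p.1 (θ (1 : Multiplicative ℤ)⁻¹ x) = p.1 x
      rw [inv_one, _root_.map_one, MulAut.one_apply]
    · rfl
  map_mul' n m := by
    apply Equiv.ext
    intro p
    apply Prod.ext
    · apply MonoidHom.ext
      intro x
      show p.1 (θ (n * m)⁻¹ x) = p.1 (θ m⁻¹ (θ n⁻¹ x))
      rw [mul_inv_rev, _root_.map_mul, MulAut.mul_apply]
    · rfl

/-- the action of the group -/
def Φ : G →* Equiv.Perm ((F →* Equiv.Perm X) × X) :=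
  SemidirectProduct.lift f1 f2 (by
    intro n
    apply MonoidHom.ext
    intro x
    apply Equiv.ext
    intro p
    apply Prod.ext
    · apply MonoidHom.ext
      intro y
      show p.1 y = (f2 n (f1 x ((f2 n)⁻¹ p))).1 y
      rw [← _root_.map_inv]
      show p.1 y = p.1 (θ (n⁻¹)⁻¹ (θ n⁻¹ y))
      rw [← MulAut.mul_apply, ← _root_.map_mul, inv_inv, mul_inv_cancel, _root_.map_one,
        MulAut.one_apply]
    · show p.1 (θ n x) p.2 = (f2 n (f1 x ((f2 n)⁻¹ p))).2
      rw [← _root_.map_inv]
      show p.1 (θ n x) p.2 = p.1 (θ (n⁻¹)⁻¹ x) p.2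
      rw [inv_inv])

theorem Φ_iF (x : F) (p : (F →* Equiv.Perm X) × X) : Φ (iF x) p = (p.1, p.1 x p.2) := by
  unfold Φ
  rw [SemidirectProduct.lift_inl]
  rfl

end ext

theorem comap_fi {Q : Type} [Group Q] [Finite Q] (Ψ : G →* Q) (H : Subgroup Q) :
    (H.comap Ψ).FiniteIndex := by
  apply Subgroup.finiteIndex_of_le (H := Ψ.ker)
  intro x hx
  rw [MonoidHom.mem_ker] at hx
  rw [Subgroup.mem_comap, hx]
  exact H.one_mem

theorem finite_target {Q : Type} [Group Q] [Finite Q] (Ψ : G →* Q) (g h : G)
    (hh : Ψ h ∉ Subgroup.zpowers (Ψ g)) :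
    ∃ K : Subgroup G, K.FiniteIndex ∧ Subgroup.zpowers g ≤ K ∧ h ∉ K := by
  refine ⟨(Subgroup.zpowers (Ψ g)).comap Ψ, comap_fi _ _, ?_, hh⟩
  rw [Subgroup.zpowers_le]
  exact Subgroup.mem_zpowers _

def π (M : ℕ) : G →* Multiplicative (ZMod M) :=
  (AddMonoidHom.toMultiplicative (Int.castAddHom (ZMod M))).comp SemidirectProduct.rightHom

theorem π_apply (M : ℕ) (g : G) :
    π M g = Multiplicative.ofAdd ((Multiplicative.toAdd g.right : ℤ) : ZMod M) := rfl

theorem css (g h : G) (hh : h ∉ Subgroup.zpowers g) :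
    ∃ K : Subgroup G, K.FiniteIndex ∧ Subgroup.zpowers g ≤ K ∧ h ∉ K := by
  classical
  by_cases hd : Multiplicative.toAdd g.right ∣ Multiplicative.toAdd h.right
  · obtain ⟨j, hj⟩ := hd
    by_cases hg : Multiplicative.toAdd g.right = 0
    · -- both in `F`
      have hg1 : g = iF g.left := by
        apply SemidirectProduct.ext
        · rfl
        · exact Multiplicative.toAdd.injective hg
      have hh1 : h = iF h.left := by
        apply SemidirectProduct.ext
        · rfl
        · apply Multiplicative.toAdd.injective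
          rw [hj, hg, zero_mul]; rfl
      have hn : h.left ∉ Subgroup.zpowers g.left := by
        intro hm
        apply hh
        obtain ⟨k, hk⟩ := Subgroup.mem_zpowers_iff.1 hm
        rw [Subgroup.mem_zpowers_iff]
        refine ⟨k, ?_⟩
        rw [hg1, hh1, ← hk, map_zpow]
      obtain ⟨X, _, ρ, x0, h1, h2⟩ := marshall_hall _ _ hn
      have : Finite (F →* Equiv.Perm X) := Finite.of_equiv _ (FreeGroup.lift (α := Fin 3))
      refine ⟨(MulAction.stabilizer (Equiv.Perm ((F →* Equiv.Perm X) × X)) (ρ, x0)).comap Φ,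
        comap_fi _ _, ?_, ?_⟩
      · rw [Subgroup.zpowers_le, Subgroup.mem_comap, MulAction.mem_stabilizer_iff, hg1]
        show Φ (iF g.left) (ρ, x0) = (ρ, x0)
        rw [Φ_iF, h1]
      · rw [Subgroup.mem_comap, MulAction.mem_stabilizer_iff, hh1]
        show ¬ Φ (iF h.left) (ρ, x0) = (ρ, x0)
        rw [Φ_iF]
        intro h3
        exact h2 (congrArg Prod.snd h3)
    · -- `g` outside `F`
      set k : ℤ := Multiplicative.toAdd g.right with hk
      have hu : (h * (g ^ j)⁻¹).right = 1 := by
        apply Multiplicative.toAdd.injective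
        have h1 : (g ^ j).right = g.right ^ j := by
          have := map_zpow (SemidirectProduct.rightHom : G →* Multiplicative ℤ) g j
          exact this
        rw [SemidirectProduct.mul_right, SemidirectProduct.inv_right, h1, toAdd_mul, toAdd_inv,
          toAdd_zpow, hj, ← hk, smul_eq_mul, toAdd_one]
        ring
      set u0 : F := (h * (g ^ j)⁻¹).left with hu0
      have hu1 : h * (g ^ j)⁻¹ = iF u0 := by
        apply SemidirectProduct.ext
        · rfl
        · exact hu
      have hne : u0 ∉ Subgroup.zpowers (1 : F) := by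
        rw [Subgroup.zpowers_one_eq_bot, Subgroup.mem_bot]
        intro h1
        apply hh
        rw [h1, _root_.map_one] at hu1
        rw [mul_inv_eq_one.1 hu1]
        exact Subgroup.zpow_mem_zpowers g j
      obtain ⟨X, _, ρ, x0, _, h2⟩ := marshall_hall _ _ hne
      have : Finite (F →* Equiv.Perm X) := Finite.of_equiv _ (FreeGroup.lift (α := Fin 3))
      set o : ℕ := orderOf (Φ (X := X) g) with ho
      have hopos : 0 < o := orderOf_pos _
      have hMpos : 0 < k.natAbs * o := Nat.mul_pos (Int.natAbs_pos.2 hg) hopos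
      have : NeZero (k.natAbs * o) := ⟨hMpos.ne'⟩
      apply finite_target ((Φ (X := X)).prod (π (k.natAbs * o))) g h
      intro hm
      obtain ⟨i, hi⟩ := Subgroup.mem_zpowers_iff.1 hm
      rw [← map_zpow] at hi
      have h3 : Φ (X := X) (g ^ i) = Φ (X := X) h := congrArg Prod.fst hi
      have h4 : π (k.natAbs * o) (g ^ i) = π (k.natAbs * o) h := congrArg Prod.snd hi
      rw [map_zpow, π_apply, π_apply, ← ofAdd_zsmul] at h4
      have h5 := Multiplicative.ofAdd.injective h4
      rw [hj, ← hk, zsmul_eq_mul, ← Int.cast_mul, ZMod.intCast_eq_intCast_iff] at h5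
      have h6 : ((k.natAbs * o : ℕ) : ℤ) ∣ k * j - i * k := Int.ModEq.dvd h5
      have h7 : (o : ℤ) ∣ j - i := by
        have h8 : k * j - i * k = k * (j - i) := by ring
        rw [h8] at h6
        have h9 : ((k.natAbs * o : ℕ) : ℤ) ∣ k * (j - i) ↔ k * (o : ℤ) ∣ k * (j - i) := by
          rw [Nat.cast_mul]
          constructor
          · intro h
            refine dvd_trans ?_ h
            exact mul_dvd_mul_right (Int.dvd_natAbs_self) _
          · intro h
            refine dvd_trans ?_ h
            exact mul_dvd_mul_right (Int.natAbs_dvd_self) _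
        rw [h9] at h6
        exact (mul_dvd_mul_iff_left hg).1 h6
      have h8 : Φ (X := X) (iF u0) = 1 := by
        rw [← hu1, _root_.map_mul, ← h3, _root_.map_inv, map_zpow, map_zpow, ← zpow_neg, ← zpow_add]
        rw [← orderOf_dvd_iff_zpow_eq_one, ← ho]
        have : i + -j = -(j - i) := by ring
        rw [this]
        exact (dvd_neg).2 h7
      apply h2
      have h9 := Φ_iF u0 ((ρ, x0) : (F →* Equiv.Perm X) × X)
      rw [h8] at h9
      exact (congrArg Prod.snd h9).symm
  · -- separated by the quotient `ℤ`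
    by_cases hg : Multiplicative.toAdd g.right = 0
    · have hne : Multiplicative.toAdd h.right ≠ 0 := by
        intro h0
        apply hd
        rw [h0]
        exact dvd_zero _
      have : NeZero ((Multiplicative.toAdd h.right).natAbs + 1) := ⟨by omega⟩
      apply finite_target (π ((Multiplicative.toAdd h.right).natAbs + 1)) g h
      rw [π_apply, π_apply, hg]
      simp only [Int.cast_zero, ofAdd_zero, Subgroup.zpowers_one_eq_bot, Subgroup.mem_bot,
        ofAdd_eq_one]
      rw [ZMod.intCast_zmod_eq_zero_iff_dvd]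
      intro h1
      have h2 := Int.natAbs_dvd_natAbs.2 h1
      have h3 := Nat.le_of_dvd (Int.natAbs_pos.2 hne) h2
      simp only [Int.natAbs_natCast] at h3
      omega
    · have : NeZero (Multiplicative.toAdd g.right).natAbs := ⟨Int.natAbs_ne_zero.2 hg⟩
      apply finite_target (π (Multiplicative.toAdd g.right).natAbs) g h
      rw [π_apply, π_apply]
      have h1 : ((Multiplicative.toAdd g.right : ℤ) :
          ZMod (Multiplicative.toAdd g.right).natAbs) = 0 := by
        rw [ZMod.intCast_zmod_eq_zero_iff_dvd]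
        exact Int.natAbs_dvd_self
      rw [h1]
      simp only [ofAdd_zero, Subgroup.zpowers_one_eq_bot, Subgroup.mem_bot, ofAdd_eq_one]
      rw [ZMod.intCast_zmod_eq_zero_iff_dvd]
      intro h2
      exact hd (Int.natAbs_dvd.1 h2)

end Pool.Agent.Q117.Gers
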