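import Mathlib
import Pool.Agent.Q117.Gers.CSS

/-! The subgroup generated by `a` is not a virtual retract of Gersten's group. -/

namespace Pool.Agent.Q117.Gers

open FreeGroup

def t : G := SemidirectProduct.inr (Multiplicative.ofAdd 1)

theorem t_left : t.left = 1 := rfl
theorem t_right : t.right = Multiplicative.ofAdd 1 := rfl

theorem comm_at : iF gA * t = t * iF gA := by
  apply SemidirectProduct.ext
  · simp [t, θ_a]
  · simp [t]

theorem conj_b : (iF gB)⁻¹ * t * iF gB = iF gA * t := by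
  apply SemidirectProduct.ext
  · simp [t, θ_one', φ_b]
  · simp [t]

theorem conj_c : (iF gC)⁻¹ * t * iF gC = iF gA * iF gA * t := by
  apply SemidirectProduct.ext
  · simp [t, θ_one', φ_c, mul_assoc]
  · simp [t]

/-- exponent of `a` -/
def ea : F →* Multiplicative ℤ := FreeGroup.lift ![Multiplicative.ofAdd 1, 1, 1]

theorem ea_a : ea gA = Multiplicative.ofAdd 1 := by simp [ea]

theorem not_vrc : ¬ ∃ K : Subgroup G, K.FiniteIndex ∧ Subgroup.zpowers (iF gA) ≤ K ∧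
      ∃ r : ↥K →* G, (∀ k : ↥K, r k ∈ Subgroup.zpowers (iF gA)) ∧
        (∀ k : ↥K, (k : G) ∈ Subgroup.zpowers (iF gA) → r k = (k : G)) := by
  classical
  rintro ⟨K, hK, haK, r, hr1, hr2⟩
  -- the associated homomorphism to the integers
  have hpow : ∀ k : ↥K, ∃ n : ℤ, r k = iF (gA ^ n) := by
    intro k
    obtain ⟨n, hn⟩ := Subgroup.mem_zpowers_iff.1 (hr1 k)
    exact ⟨n, by rw [← hn, map_zpow]⟩
  let f : ↥K →* Multiplicative ℤ :=
    { toFun := fun k => ea (r k).left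
      map_one' := by rw [_root_.map_one]; exact _root_.map_one ea
      map_mul' := by
        intro x y
        obtain ⟨n, hn⟩ := hpow x
        obtain ⟨m, hm⟩ := hpow y
        rw [_root_.map_mul, hn, hm, ← _root_.map_mul]
        show ea (gA ^ n * gA ^ m) = ea (gA ^ n) * ea (gA ^ m)
        rw [_root_.map_mul] }
  -- normal subgroup
  let N : Subgroup G := K.normalCore
  have hNK : N ≤ K := K.normalCore_le
  haveI : N.FiniteIndex := inferInstance
  haveI : N.Normal := inferInstance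
  let F0 : G → ℤ := fun x => if h : x ∈ K then Multiplicative.toAdd (f ⟨x, h⟩) else 0
  have hF0 : ∀ x (h : x ∈ K), F0 x = Multiplicative.toAdd (f ⟨x, h⟩) := fun x h => dif_pos h
  have hF0mul : ∀ x y, x ∈ K → y ∈ K → F0 (x * y) = F0 x + F0 y := by
    intro x y hx hy
    rw [hF0 _ (K.mul_mem hx hy), hF0 _ hx, hF0 _ hy, ← toAdd_mul, ← _root_.map_mul]
    rfl
  have hF0one : F0 1 = 0 := by
    have := hF0mul 1 1 K.one_mem K.one_mem
    rw [mul_one] at this
    omega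
  have hF0inv : ∀ x, x ∈ K → F0 x⁻¹ = - F0 x := by
    intro x hx
    have := hF0mul x x⁻¹ hx (K.inv_mem hx)
    rw [mul_inv_cancel, hF0one] at this
    omega
  have hF0pow : ∀ x, x ∈ K → ∀ n : ℕ, F0 (x ^ n) = n * F0 x := by
    intro x hx n
    induction n with
    | zero => simp [hF0one]
    | succ n ih => rw [pow_succ, hF0mul _ _ (K.pow_mem hx n) hx, ih]; push_cast; ring
  have hF0a : F0 (iF gA) = 1 := by
    have hm : iF gA ∈ Subgroup.zpowers (iF gA) := Subgroup.mem_zpowers _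
    rw [hF0 _ (haK hm)]
    show Multiplicative.toAdd (ea (r ⟨iF gA, haK hm⟩).left) = 1
    rw [hr2 ⟨iF gA, haK hm⟩ hm]
    show Multiplicative.toAdd (ea gA) = 1
    rw [ea_a]; rfl
  -- the conjugates
  let Fq : G → G → ℤ := fun g x => F0 (g⁻¹ * x * g)
  have hconj : ∀ g x : G, x ∈ N → g⁻¹ * x * g ∈ N := by
    intro g x hx
    have := (inferInstance : N.Normal).conj_mem x hx g⁻¹
    rwa [inv_inv] at this
  have hwd : ∀ g g' : G, (g : G ⧸ N) = (g' : G ⧸ N) → ∀ x ∈ N, Fq g x = Fq g' x := by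
    intro g g' h x hx
    rw [QuotientGroup.eq] at h
    have hn : g' = g * (g⁻¹ * g') := by group
    set n := g⁻¹ * g' with hn'
    show F0 (g⁻¹ * x * g) = F0 (g'⁻¹ * x * g')
    have h1 : g'⁻¹ * x * g' = n⁻¹ * (g⁻¹ * x * g) * n := by rw [hn]; group
    rw [h1]
    have h2 := hNK (hconj g x hx)
    have h3 := hNK h
    rw [hF0mul _ _ (K.mul_mem (K.inv_mem h3) h2) h3, hF0mul _ _ (K.inv_mem h3) h2,
      hF0inv _ h3]
    ring
  haveI : Fintype (G ⧸ N) := Fintype.ofFinite _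
  let Q : G → ℤ := fun x => ∑ q : G ⧸ N, (Fq q.out x) ^ 2
  have hQ : ∀ h x : G, x ∈ N → Q (h⁻¹ * x * h) = Q x := by
    intro h x hx
    show ∑ q : G ⧸ N, (Fq q.out (h⁻¹ * x * h)) ^ 2 = ∑ q : G ⧸ N, (Fq q.out x) ^ 2
    rw [← Equiv.sum_comp (MulAction.toPerm h : Equiv.Perm (G ⧸ N)) (fun q => (Fq q.out x) ^ 2)]
    apply Finset.sum_congr rfl
    intro q _
    congr 1
    have h1 : Fq q.out (h⁻¹ * x * h) = Fq (h * q.out) x := by
      show F0 _ = F0 _
      congr 1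
      group
    rw [h1]
    apply hwd _ _ _ x hx
    rw [MulAction.toPerm_apply, QuotientGroup.out_eq']
    conv_rhs => rw [← QuotientGroup.out_eq' q]
    rfl
  -- powers
  set M : ℕ := N.index with hM
  have hMpos : 0 < M := Nat.pos_of_ne_zero Subgroup.FiniteIndex.index_ne_zero
  have hmem : ∀ x : G, x ^ M ∈ N := fun x => Subgroup.pow_index_mem N x
  have c1 : (iF gA * t) ^ M = iF gA ^ M * t ^ M := (show Commute (iF gA) t from comm_at).mul_pow M
  have c2 : (iF gA * iF gA * t) ^ M = iF gA ^ M * iF gA ^ M * t ^ M := by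
    rw [((show Commute (iF gA) t from comm_at).mul_left
      (show Commute (iF gA) t from comm_at)).mul_pow M,
      (Commute.refl (iF gA)).mul_pow M]
  have q1 : Q (iF gA ^ M * t ^ M) = Q (t ^ M) := by
    rw [← c1, ← conj_b]
    have : ((iF gB)⁻¹ * t * iF gB) ^ M = (iF gB)⁻¹ * t ^ M * iF gB := by
      have := conj_pow (a := (iF gB)⁻¹) (b := t) (i := M)
      rwa [inv_inv] at this
    rw [this]
    exact hQ _ _ (hmem _)
  have q2 : Q (iF gA ^ M * iF gA ^ M * t ^ M) = Q (t ^ M) := by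
    rw [← c2, ← conj_c]
    have : ((iF gC)⁻¹ * t * iF gC) ^ M = (iF gC)⁻¹ * t ^ M * iF gC := by
      have := conj_pow (a := (iF gC)⁻¹) (b := t) (i := M)
      rwa [inv_inv] at this
    rw [this]
    exact hQ _ _ (hmem _)
  -- additivity of `Fq`
  have hadd : ∀ g x y, x ∈ N → y ∈ N → Fq g (x * y) = Fq g x + Fq g y := by
    intro g x y hx hy
    show F0 (g⁻¹ * (x * y) * g) = _
    have : g⁻¹ * (x * y) * g = (g⁻¹ * x * g) * (g⁻¹ * y * g) := by group
    rw [this]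
    exact hF0mul _ _ (hNK (hconj g x hx)) (hNK (hconj g y hy))
  have e1 : ∑ q : G ⧸ N, ((Fq q.out (iF gA ^ M)) + Fq q.out (t ^ M)) ^ 2 =
      ∑ q : G ⧸ N, (Fq q.out (t ^ M)) ^ 2 := by
    have : Q (iF gA ^ M * t ^ M) =
        ∑ q : G ⧸ N, ((Fq q.out (iF gA ^ M)) + Fq q.out (t ^ M)) ^ 2 := by
      apply Finset.sum_congr rfl
      intro q _
      rw [hadd _ _ _ (hmem _) (hmem _)]
    rw [← this, q1]
  have e2 : ∑ q : G ⧸ N, (2 * (Fq q.out (iF gA ^ M)) + Fq q.out (t ^ M)) ^ 2 =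
      ∑ q : G ⧸ N, (Fq q.out (t ^ M)) ^ 2 := by
    have : Q (iF gA ^ M * iF gA ^ M * t ^ M) =
        ∑ q : G ⧸ N, (2 * (Fq q.out (iF gA ^ M)) + Fq q.out (t ^ M)) ^ 2 := by
      apply Finset.sum_congr rfl
      intro q _
      rw [hadd _ _ _ (N.mul_mem (hmem _) (hmem _)) (hmem _), hadd _ _ _ (hmem _) (hmem _)]
      ring
    rw [← this, q2]
  have e3 : ∑ q : G ⧸ N, (Fq q.out (iF gA ^ M)) ^ 2 = 0 := by
    have h1 : ∑ q : G ⧸ N, 2 * (Fq q.out (iF gA ^ M)) ^ 2 =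
        ∑ q : G ⧸ N, (2 * (Fq q.out (iF gA ^ M)) + Fq q.out (t ^ M)) ^ 2
        - 2 * ∑ q : G ⧸ N, ((Fq q.out (iF gA ^ M)) + Fq q.out (t ^ M)) ^ 2
        + ∑ q : G ⧸ N, (Fq q.out (t ^ M)) ^ 2 := by
      rw [Finset.mul_sum, ← Finset.sum_sub_distrib, ← Finset.sum_add_distrib]
      apply Finset.sum_congr rfl
      intro q _
      ring
    rw [e1, e2, ← Finset.mul_sum] at h1
    linarith
  have e4 : Fq ((1 : G) : G ⧸ N).out (iF gA ^ M) = 0 := by
    have := (Finset.sum_eq_zero_iff_of_nonneg (fun q _ => sq_nonneg _)).1 e3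
      ((1 : G) : G ⧸ N) (Finset.mem_univ _)
    exact pow_eq_zero_iff (two_ne_zero) |>.1 this
  have e5 : Fq ((1 : G) : G ⧸ N).out (iF gA ^ M) = Fq 1 (iF gA ^ M) :=
    hwd _ _ (QuotientGroup.out_eq' _) _ (hmem _)
  have e6 : Fq 1 (iF gA ^ M) = M := by
    show F0 _ = _
    rw [inv_one, one_mul, mul_one, hF0pow _ (haK (Subgroup.mem_zpowers _)), hF0a, mul_one]
  rw [e5, e6] at e4
  have : (M : ℤ) ≠ 0 := by exact_mod_cast hMpos.ne'
  exact this e4

end Pool.Agent.Q117.Gers
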